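import Mathlib

set_option autoImplicit false

namespace Pool.Agent.H.MP_2e24ef_al

open Matrix

structure Hyp {S : Type} [Ring S] (a b c d e f : S) : Prop where
  ha : a = c + f
  hb : b = d + e + f
  ab : a * b = 0
  bc : b * c = 0
  cd : c * d = 0
  de : d * e = 0
  ef : e * f = 0
  bd : b * d = 0
  ce : c * e = 0
  syz : ∀ x y z w : S, x * c + y * d + z * e + w * f = 0 → ∃ p q r s t u v : S,
    x = q * b ∧ y = p * a + (r * b + s * c) ∧ z = p * a + (t * c + u * d) ∧ w = p * a + v * e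
  nak : ∀ (Z : S → Prop) (g : S), (g = a ∨ g = b) →
    (∀ z, Z z → ∃ z' w, Z z' ∧ z = z' * w * g) → ∀ z, Z z → z = 0

namespace Hyp

variable {S : Type} [Ring S] {a b c d e f : S} (H : Hyp a b c d e f)
include H

lemma T5 {q r s : S} (h : q * b + r * c = s * e) : s * e = 0 := by
  refine H.nak (fun z => (∃ q r, q * b + r * c = z) ∧ ∃ s, z = s * e) b (.inr rfl) ?_ _
    ⟨⟨q, r, h⟩, s, rfl⟩
  rintro _ ⟨⟨q, r, rfl⟩, s, h⟩
  obtain ⟨p, q', r', s', -, -, v, h0, h1, -, h3⟩ := H.syz r q (q - s) q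
    (by rw [sub_mul, ← h, H.hb]; noncomm_ring)
  exact ⟨v * e, 1, ⟨⟨r', s', add_left_cancel (h1.symm.trans h3)⟩, v, rfl⟩,
    by simp [h0, h3, add_mul, mul_assoc, H.ab, H.bc]⟩

lemma T1' {p q : S} (h : p * a = q * e) : (∃ s, p = s * a) ∧ ∃ s, p = s * b := by
  obtain ⟨p', q', r, s, -, -, v, h0, h1, -, h3⟩ := H.syz p 0 (-q) p
    (by rw [neg_mul, ← h, H.ha]; noncomm_ring)
  have : (q' + r) * b + s * c = v * e := by
    rw [add_mul, ← h0, h3, add_assoc, add_right_comm, ← h1, zero_add]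
  exact ⟨⟨p', by rw [h3, H.T5 this, add_zero]⟩, q', h0⟩

lemma dirC {x y z w : S} (h : x * c + y * d + z * e + w * f = 0) : x * c = 0 := by
  obtain ⟨-, q, -, -, -, -, -, h0, -⟩ := H.syz _ _ _ _ h
  simp [h0, mul_assoc, H.bc]

lemma T6 {p q : S} (h : p * a = q * b) : p * a = 0 := by
  refine H.nak (fun z => (∃ s, z = s * a) ∧ ∃ s, z = s * b) a (.inl rfl) ?_ _ ⟨⟨p, rfl⟩, q, h⟩
  rintro _ ⟨⟨p, rfl⟩, q, h⟩
  obtain ⟨p1, q1, r1, s1, t1, u1, v1, h0, h1, h2, h3⟩ := H.syz p (-q) (-q) (p - q) (by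
      rw [← sub_eq_zero, H.ha, H.hb] at h
      rw [← h]; noncomm_ring)
  have e1 : (q1 + r1) * b + s1 * c = v1 * e := by
    linear_combination (norm := noncomm_ring) h3 - h0 - h1
  have e2 : q1 * b = (-t1) * c + (-u1) * d := by
    linear_combination (norm := noncomm_ring) h3 - h0 - h2 + H.T5 e1
  obtain ⟨p2, q2, r2, s2, t2, u2, v2, -, -, g2, g3⟩ := H.syz (-t1) (-u1 - q1) (-q1) (-q1) (by
    rw [H.hb] at e2
    linear_combination (norm := noncomm_ring) -e2)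
  obtain ⟨p3, q3, r3, s3, t3, u3, v3, k0, k1, -, k3⟩ := H.syz t2 u2 (-v2) 0 (by
    linear_combination (norm := noncomm_ring) g3 - g2)
  have := H.T1' (p := p3) (q := -v3) (by linear_combination (norm := noncomm_ring) -k3)
  refine ⟨p3, -(a * d * b), this, ?_⟩
  have q1e : q1 = -(p2 * a + (t2 * c + u2 * d)) := by rw [← g2, neg_neg]
  rw [h0, q1e, k0, k1]
  simp [add_mul, mul_assoc, H.ab, H.bc, H.bd, H.cd]

lemma anna {p : S} (h : p * a = 0) : p = 0 := by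
  obtain ⟨⟨s, rfl⟩, t, ht⟩ := H.T1' (q := 0) (h.trans (zero_mul _).symm)
  exact H.T6 ht

lemma T1 {p q : S} (h : p * a = q * e) : p = 0 := by
  obtain ⟨⟨s, rfl⟩, t, ht⟩ := H.T1' h
  exact H.T6 ht

lemma annb {x : S} (h : x * b = 0) : ∃ p, x = p * a := by
  obtain ⟨p, q, r, s, t, u, v, -, h1, -, h3⟩ := H.syz 0 x x x (by
    rw [H.hb] at h
    linear_combination (norm := noncomm_ring) h)
  exact ⟨p, by rw [h3, H.T5 (add_left_cancel (h1.symm.trans h3)), add_zero]⟩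

lemma annc {x : S} (h : x * c = 0) : ∃ p, x = p * b := by
  obtain ⟨p, q, r, s, t, u, v, h0, -⟩ := H.syz x 0 0 0 (by simpa using h)
  exact ⟨q, h0⟩

lemma annd {x : S} (h : x * d = 0) : ∃ p q, x = p * b + q * c := by
  obtain ⟨p, q, r, s, t, u, v, -, h1, -, h3⟩ := H.syz 0 x 0 0 (by simpa using h)
  obtain rfl := H.T1 (p := p) (q := -v) (by linear_combination (norm := noncomm_ring) -h3)
  exact ⟨r, s, by simpa using h1⟩

lemma anne {x : S} (h : x * e = 0) : ∃ p q, x = p * c + q * d := by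
  obtain ⟨p, q, r, s, t, u, v, -, -, h2, h3⟩ := H.syz 0 0 x 0 (by simpa using h)
  obtain rfl := H.T1 (p := p) (q := -v) (by linear_combination (norm := noncomm_ring) -h3)
  exact ⟨t, u, by simpa using h2⟩

lemma cdz {x y : S} (h : x * c + y * d = 0) : (∃ p, x = p * b) ∧ ∃ p q, y = p * b + q * c := by
  have := H.dirC (x := x) (y := y) (z := 0) (w := 0) (by simpa using h)
  exact ⟨H.annc this, H.annd (by simpa [this] using h)⟩

lemma bcz {x y : S} (h : x * b + y * c = 0) : (∃ p, x = p * a) ∧ ∃ p, y = p * b := by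
  have := H.dirC (x := y) (y := x) (z := x) (w := x) (by
    rw [H.hb] at h
    linear_combination (norm := noncomm_ring) h)
  exact ⟨H.annb (by simpa [this] using h), H.annc this⟩

end Hyp

def M0 {S : Type} [Ring S] (c d e f : S) : Matrix (Fin 4) (Fin 1) S := !![c; d; e; f]

def M1 {S : Type} [Ring S] (a b c d e : S) : Matrix (Fin 7) (Fin 4) S :=
  !![0, a, a, a; b, 0, 0, 0; 0, c, 0, 0; 0, 0, d, 0; 0, 0, 0, e; 0, b, 0, 0; 0, 0, c, 0]

def M2 {S : Type} [Ring S] (a b c d : S) : Matrix (Fin 8) (Fin 7) S :=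
  !![0, a, 0, 0, 0, 0, 0; 0, 0, 0, 0, 0, a, 0; 0, 0, b, 0, 0, 0, 0; 0, 0, 0, 0, 0, 0, b;
    0, 0, 0, b, 0, 0, 0; 0, 0, 0, c, 0, 0, 0; 0, 0, 0, 0, c, 0, 0; 0, 0, 0, 0, d, 0, 0]

def M3 {S : Type} [Ring S] (a b c : S) : Matrix (Fin 7) (Fin 8) S :=
  !![0, 0, a, 0, 0, 0, 0, 0; 0, 0, 0, a, 0, 0, 0, 0; 0, 0, 0, 0, a, 0, 0, 0;
    0, 0, 0, 0, 0, b, 0, 0; 0, 0, 0, 0, 0, 0, b, 0; 0, 0, 0, 0, 0, 0, 0, b;
    0, 0, 0, 0, 0, 0, 0, c]

def M4 {S : Type} [Ring S] (a b : S) : Matrix (Fin 4) (Fin 7) S :=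
  !![0, 0, 0, a, 0, 0, 0; 0, 0, 0, 0, a, 0, 0; 0, 0, 0, 0, 0, a, 0; 0, 0, 0, 0, 0, 0, b]

def M5 {S : Type} [Ring S] (a : S) : Matrix (Fin 1) (Fin 4) S := !![0, 0, 0, a]

lemma exact_of {S : Type} [Ring S] {l m n : ℕ} (P : Matrix (Fin l) (Fin m) S)
    (Q : Matrix (Fin m) (Fin n) S) (h0 : P * Q = 0) (h1 : ∀ v, v ᵥ* Q = 0 → ∃ u, u ᵥ* P = v) :
    Function.Exact (fun v => v ᵥ* P) fun v => v ᵥ* Q := fun v =>
  ⟨h1 v, by rintro ⟨u, rfl⟩; simp [vecMul_vecMul, h0]⟩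

namespace Hyp

variable {S : Type} [Ring S] {a b c d e f : S} (H : Hyp a b c d e f)
include H

lemma ex0 : Function.Exact (fun v => v ᵥ* M1 a b c d e) fun v => v ᵥ* M0 c d e f := by
  refine exact_of _ _ ?_ fun v hv => ?_
  · have := H.ab
    rw [H.hb, mul_add, mul_add, add_assoc] at this
    ext i j
    fin_cases i <;> fin_cases j <;>
      simp [M1, M0, Matrix.mul_apply, Fin.sum_univ_succ, H.bc, H.cd, H.de, H.ef, H.bd, H.ce, this]
  · have := congrFun hv 0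
    simp [M0, vecMul, dotProduct, Fin.sum_univ_succ, ← add_assoc] at this
    obtain ⟨p, q, r, s, t, u, w, h0, h1, h2, h3⟩ := H.syz _ _ _ _ this
    refine ⟨![p, q, s, u, w, r, t], funext fun j => ?_⟩
    fin_cases j <;> simp [M1, vecMul, dotProduct, Fin.sum_univ_succ, h0, h1, h2, h3, add_comm]

lemma ex1 : Function.Exact (fun v => v ᵥ* M2 a b c d) fun v => v ᵥ* M1 a b c d e := by
  refine exact_of _ _ ?_ fun v hv => ?_
  · ext i j
    fin_cases i <;> fin_cases j <;>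
      simp [M1, M2, Matrix.mul_apply, Fin.sum_univ_succ, H.ab, H.bc, H.cd, H.de, H.bd, H.ce]
  · have := congrFun hv
    simp [M1, vecMul, dotProduct, Fin.sum_univ_succ, Fin.forall_fin_succ] at this
    obtain ⟨h0, h1, h2, h3⟩ := this
    have z := H.T1 (p := v 0) (q := -v 4) (by linear_combination (norm := noncomm_ring) h3)
    rw [z, zero_mul, zero_add] at h1 h2 h3
    obtain ⟨x0, e0⟩ := H.annb h0
    obtain ⟨⟨x1, e1⟩, x2, e2⟩ := H.bcz ((add_comm _ _).trans h1)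
    obtain ⟨⟨x3, e3⟩, x4, x5, e4⟩ := H.cdz ((add_comm _ _).trans h2)
    obtain ⟨x6, x7, e6⟩ := H.anne h3
    refine ⟨![x0, x1, x2, x3, x4, x5, x6, x7], funext fun j => ?_⟩
    fin_cases j <;> simp [M2, vecMul, dotProduct, Fin.sum_univ_succ, *]

lemma ex2 : Function.Exact (fun v => v ᵥ* M3 a b c) fun v => v ᵥ* M2 a b c d := by
  refine exact_of _ _ ?_ fun v hv => ?_
  · ext i j
    fin_cases i <;> fin_cases j <;>
      simp [M3, M2, Matrix.mul_apply, Fin.sum_univ_succ, H.ab, H.bc, H.cd, H.bd]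
  · have := congrFun hv
    simp [M2, vecMul, dotProduct, Fin.sum_univ_succ, Fin.forall_fin_succ] at this
    obtain ⟨h0, h2, h4, h6, h1, h3⟩ := this
    obtain ⟨x0, e0⟩ := H.annb h2
    obtain ⟨x1, e1⟩ := H.annb h3
    obtain ⟨⟨x2, e2⟩, x3, e3⟩ := H.bcz h4
    obtain ⟨⟨x4, e4⟩, x5, x6, e5⟩ := H.cdz h6
    refine ⟨![x0, x1, x2, x3, x4, x5, x6], funext fun j => ?_⟩
    fin_cases j <;> simp [M3, vecMul, dotProduct, Fin.sum_univ_succ, H.anna h0, H.anna h1, *]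

lemma ex3 : Function.Exact (fun v => v ᵥ* M4 a b) fun v => v ᵥ* M3 a b c := by
  refine exact_of _ _ ?_ fun v hv => ?_
  · ext i j
    fin_cases i <;> fin_cases j <;>
      simp [M3, M4, Matrix.mul_apply, Fin.sum_univ_succ, H.ab, H.bc]
  · have := congrFun hv
    simp [M3, vecMul, dotProduct, Fin.sum_univ_succ, Fin.forall_fin_succ] at this
    obtain ⟨h0, h1, h2, h3, h4, h5⟩ := this
    obtain ⟨x0, e0⟩ := H.annb h3
    obtain ⟨x1, e1⟩ := H.annb h4
    obtain ⟨⟨x2, e2⟩, x3, e3⟩ := H.bcz h5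
    refine ⟨![x0, x1, x2, x3], funext fun j => ?_⟩
    fin_cases j <;>
      simp [M4, vecMul, dotProduct, Fin.sum_univ_succ, H.anna h0, H.anna h1, H.anna h2, *]

lemma ex4 : Function.Exact (fun v => v ᵥ* M5 a) fun v => v ᵥ* M4 a b := by
  refine exact_of _ _ ?_ fun v hv => ?_
  · ext i j
    fin_cases i <;> fin_cases j <;> simp [M5, M4, Matrix.mul_apply, Fin.sum_univ_succ, H.ab]
  · have := congrFun hv
    simp [M4, vecMul, dotProduct, Fin.sum_univ_succ, Fin.forall_fin_succ] at this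
    obtain ⟨h0, h1, h2, h3⟩ := this
    obtain ⟨x0, e0⟩ := H.annb h3
    refine ⟨![x0], funext fun j => ?_⟩
    fin_cases j <;>
      simp [M5, vecMul, dotProduct, Fin.sum_univ_succ, H.anna h0, H.anna h1, H.anna h2, *]

lemma ex5 : Function.Exact (fun v => v ᵥ* (0 : Matrix (Fin 0) (Fin 1) S)) fun v => v ᵥ* M5 a := by
  refine exact_of _ _ (Matrix.zero_mul _) fun v hv => ?_
  have := congrFun hv 3
  simp [M5, vecMul, dotProduct] at this
  exact ⟨0, funext fun j => by fin_cases j; simp [H.anna this]⟩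

end Hyp

end Pool.Agent.H.MP_2e24ef_al
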