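import Mathlib

set_option autoImplicit false

namespace Pool.Agent.H.MP_2e24ef_al

open FreeAlgebra Matrix

variable (k : Type) [Field k] {d : ℕ} (R : Set (FreeAlgebra k (Fin d)))

/-- the quotient of the tensor algebra by the two-sided ideal generated by `R` -/
abbrev Alg := RingQuot fun u v : FreeAlgebra k (Fin d) => u ∈ R ∧ v = 0

/-- the degree one generators -/
noncomputable def gen (i : Fin d) : Alg k R := RingQuot.mkAlgHom k _ (ι k i)

/-- the relations are quadratic -/
def Quadratic : Prop := ∀ r ∈ R, r ∈ Submodule.span k {z | ∃ i j, z = ι k i * ι k j}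

/-- the trivial module has a linear free resolution whose terms have ranks `b n` -/
def LinRes (b : ℕ → ℕ) : Prop :=
  b 0 = 1 ∧ ∃ D : ∀ n, Matrix (Fin (b (n + 1))) (Fin (b n)) (Alg k R),
    (∀ n i j, D n i j ∈ Submodule.span k (Set.range (gen k R))) ∧
    (∀ n, Function.Exact (fun v => v ᵥ* D (n + 1)) fun v => v ᵥ* D n) ∧
    ∀ w, (∃ v, v ᵥ* D 0 = w) ↔ ∀ j, w j ∈ Ideal.span (Set.range (gen k R))

end Pool.Agent.H.MP_2e24ef_al
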