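import Mathlib
import Pool.Agent.H.MP_2e24ef_al.Defs
import Pool.Agent.H.MP_2e24ef_al.Abs

set_option autoImplicit false

namespace Pool.Agent.H.MP_2e24ef_al

open Matrix Polynomial

variable (k : Type) [Field k]

def rl {S : Type} [Ring S] (x : Fin 4 → S) : Fin 7 → S :=
  ![(x 0 + x 3) * (x 1 + x 2 + x 3), (x 1 + x 2 + x 3) * x 0, x 0 * x 1, x 1 * x 2, x 2 * x 3,
    (x 1 + x 2 + x 3) * x 1, x 0 * x 2]

def RR : Set (FreeAlgebra k (Fin 4)) := Set.range (rl (FreeAlgebra.ι k))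

abbrev A := Alg k (RR k)

variable {k}

lemma map_rl {S T : Type} [Ring S] [Ring T] [Algebra k S] [Algebra k T] (φ : S →ₐ[k] T)
    (x : Fin 4 → S) (i) : φ (rl x i) = rl (fun j => φ (x j)) i := by
  fin_cases i <;> simp [rl]

noncomputable def lft {S : Type} [Ring S] [Algebra k S] (x : Fin 4 → S) (h : ∀ i, rl x i = 0) :
    A k →ₐ[k] S :=
  RingQuot.liftAlgHom k ⟨FreeAlgebra.lift k x, by
    rintro _ _ ⟨⟨i, rfl⟩, rfl⟩
    simp [map_rl, h]⟩

lemma lft_gen {S : Type} [Ring S] [Algebra k S] (x : Fin 4 → S) (h : ∀ i, rl x i = 0) (i) :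
    lft x h (gen k (RR k) i) = x i := by
  simp [lft, gen, RingQuot.liftAlgHom_mkAlgHom_apply]

noncomputable def c : A k := gen k _ 0
noncomputable def d : A k := gen k _ 1
noncomputable def e : A k := gen k _ 2
noncomputable def f : A k := gen k _ 3
noncomputable def a : A k := c + f
noncomputable def b : A k := d + e + f

lemma rel (i : Fin 7) : rl (gen k (RR k)) i = 0 := by
  simpa [map_rl] using! RingQuot.mkAlgHom_rel k
    (s := fun u v : FreeAlgebra k (Fin 4) => u ∈ RR k ∧ v = 0) ⟨⟨i, rfl⟩, rfl⟩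

@[simp] lemma ab : (a : A k) * b = 0 := rel 0
@[simp] lemma bc : (b : A k) * c = 0 := rel 1
@[simp] lemma cd : (c : A k) * d = 0 := rel 2
@[simp] lemma de : (d : A k) * e = 0 := rel 3
@[simp] lemma ef : (e : A k) * f = 0 := rel 4
@[simp] lemma bd : (b : A k) * d = 0 := rel 5
@[simp] lemma ce : (c : A k) * e = 0 := rel 6

lemma ind {P : A k → Prop} (h0 : ∀ r, P (algebraMap k _ r)) (h1 : ∀ i, P (gen k (RR k) i))
    (hm : ∀ x y, P x → P y → P (x * y)) (ha : ∀ x y, P x → P y → P (x + y)) (z : A k) : P z := by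
  obtain ⟨z, rfl⟩ := RingQuot.mkAlgHom_surjective k _ z
  induction z using FreeAlgebra.induction with
  | grade0 r => simpa using h0 r
  | grade1 i => exact h1 i
  | mul x y p q => rw [map_mul]; exact hm _ _ p q
  | add x y p q => rw [map_add]; exact ha _ _ p q

noncomputable def Φ : A k →ₐ[k] (A k)[X] :=
  lft (fun i => monomial 1 (gen k (RR k) i)) fun i => by
    have : rl (fun i => monomial 1 (gen k (RR k) i)) i = monomial 2 (rl (gen k (RR k)) i) := by
      fin_cases i <;> simp only [rl, Fin.reduceFinMk, cons_val, ← map_add, monomial_mul_monomial]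
    rw [this, rel, map_zero]

lemma Φ_gen (i) : Φ (gen k (RR k) i) = monomial 1 (gen k (RR k) i) := lft_gen _ _ i

lemma nak (Z : A k → Prop) (g : A k) (hg : g = a ∨ g = b)
    (h : ∀ z, Z z → ∃ z' w, Z z' ∧ z = z' * w * g) (z : A k) (hz : Z z) : z = 0 := by
  have g1 : Φ g = C g * X := by
    rcases hg with rfl | rfl <;> simp [a, b, c, d, e, f, Φ_gen, add_mul, C_mul_X_eq_monomial]
  have : ∀ n, ∀ z, Z z → X ^ n ∣ Φ z := fun n => by
    induction n with
    | zero => simp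
    | succ n ih =>
      intro z hz
      obtain ⟨z', w, h', rfl⟩ := h z hz
      obtain ⟨p, hp⟩ := ih z' h'
      exact ⟨p * Φ w * C g, by
        rw [map_mul, map_mul, hp, g1, pow_succ, mul_assoc (X ^ n) X, X_mul]
        simp only [mul_assoc]⟩
  have z0 : Φ z = 0 := Polynomial.ext fun n => X_pow_dvd_iff.1 (this (n + 1) z hz) n (by omega)
  have ev : ∀ z : A k, (Φ z).eval₂ (RingHom.id _) 1 = z := ind (by simp [Polynomial.algebraMap_apply])
    (by simp [Φ_gen]) (fun x y p q => by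
      rw [map_mul, eval₂_mul_noncomm _ _ fun _ => Commute.one_right _, p, q])
    (fun x y p q => by rw [map_add, eval₂_add, p, q])
  rw [← ev z, z0, eval₂_zero]

lemma syz1 {S : Type} [Ring S] [Algebra k S] (g : Fin 4 → S) (r0 : ∀ i, rl g i = 0)
    (L : ∀ (M : Type) [AddCommGroup M] [Module k M] (T : Fin 4 → Module.End k M),
      (∀ i, rl T i = 0) → ∃ ρ : S →ₐ[k] Module.End k M, ∀ i, ρ (g i) = T i)
    (ind : ∀ {P : S → Prop}, (∀ r, P (algebraMap k _ r)) → (∀ i, P (g i)) →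
      (∀ x y, P x → P y → P (x * y)) → (∀ x y, P x → P y → P (x + y)) → ∀ z, P z)
    (x : Fin 4 → S) (h : ∑ i, x i * g i = 0) :
    ∃ v, v ᵥ* M1 (g 0 + g 3) (g 1 + g 2 + g 3) (g 0) (g 1) (g 2) = x := by
  set D1 := M1 (g 0 + g 3) (g 1 + g 2 + g 3) (g 0) (g 1) (g 2) with hD
  let N : Submodule S (Fin 4 → S) := Submodule.span _ (Set.range D1.row)
  let T : Fin 4 → Module.End k (((Fin 4 → S) ⧸ N) × k) := fun i =>
    { toFun := fun q => (g i • q.1 + q.2 • N.mkQ (Pi.single i 1), 0)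
      map_add' := fun p q => by simp [add_smul, smul_add]; abel
      map_smul' := fun r q => by simp [mul_smul, smul_comm r (g i)] }
  have m : ∀ i, N.mkQ (D1 i) = 0 := fun i =>
    (Submodule.Quotient.mk_eq_zero N).2 (Submodule.subset_span ⟨i, rfl⟩)
  have lin : ∀ (s t : Finset (Fin 4)) (i : Fin 7), (∑ j ∈ s, g j) * (∑ j ∈ t, g j) = 0 →
      (∑ j ∈ s, g j) • (∑ j ∈ t, Pi.single j 1) = D1 i →
      (∑ j ∈ s, T j) * (∑ j ∈ t, T j) = 0 := fun s t i h1 h2 => by
    refine LinearMap.ext fun q => Prod.ext ?_ ?_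
    · simp only [T, Module.End.mul_apply, LinearMap.sum_apply, LinearMap.coe_mk, AddHom.coe_mk,
        Prod.fst_sum, Prod.snd_sum, Finset.sum_const_zero, zero_smul, add_zero,
        ← Finset.sum_smul, Finset.sum_add_distrib, ← Finset.smul_sum, smul_add, ← mul_smul, h1,
        ← map_sum, smul_comm _ q.2, ← map_smul, h2, m]
      simp [← Finset.sum_mul, h1]
    · simp [T, Prod.snd_sum]
  obtain ⟨ρ, ρg⟩ := L _ T fun i => by
    have r := r0 i
    have := lin (![{0, 3}, {1, 2, 3}, {0}, {1}, {2}, {1, 2, 3}, {0}] i)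
      (![{1, 2, 3}, {0}, {1}, {2}, {3}, {1}, {2}] i) i
      (by fin_cases i <;> simpa [rl, add_assoc] using r)
      (by ext j; fin_cases i <;> fin_cases j <;> simp [hD, M1, add_assoc])
    fin_cases i <;> simpa [rl, add_assoc] using this
  have act : ∀ z q, ρ z (q, 0) = (z • q, 0) := ind (by simp) (by simp [ρg, T])
    (fun x y p q => by simp [p, q, mul_smul]) (fun x y p q => by simp [p, q, add_smul])
  have := congrArg (fun z => (ρ z (0, 1)).1) h
  simp only [map_sum, map_mul, ρg, T, LinearMap.sum_apply, Module.End.mul_apply, LinearMap.coe_mk,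
    AddHom.coe_mk, smul_zero, zero_add, one_smul, act, Prod.fst_sum, ← map_smul, map_zero,
    LinearMap.zero_apply, Prod.fst_zero] at this
  rw [← map_sum, Submodule.mkQ_apply, Submodule.Quotient.mk_eq_zero,
    Submodule.mem_span_range_iff_exists_fun] at this
  obtain ⟨v, hv⟩ := this
  refine ⟨v, ?_⟩
  rw [vecMul_eq_sum, show ∑ i, v i • D1 i = _ from hv]
  ext j
  simp [Finset.sum_apply, Pi.single_apply]

lemma syz0 (x : Fin 4 → A k) (h : ∑ i, x i * gen k (RR k) i = 0) :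
    ∃ v, v ᵥ* M1 (a : A k) b c d e = x :=
  syz1 (k := k) (gen k (RR k)) rel (fun _ _ _ T hT => ⟨lft T hT, lft_gen _ _⟩)
    (fun h0 h1 hm ha => ind h0 h1 hm ha) x h

lemma syz {x y z w : A k} (h : x * c + y * d + z * e + w * f = 0) : ∃ p q r s t u v : A k,
    x = q * b ∧ y = p * a + (r * b + s * c) ∧ z = p * a + (t * c + u * d) ∧ w = p * a + v * e := by
  obtain ⟨v, hv⟩ := syz0 ![x, y, z, w] (by simpa [Fin.sum_univ_four] using! h)
  have := fun j => congrFun hv j
  simp only [Fin.forall_fin_succ, vecMul, dotProduct, Fin.sum_univ_succ, M1] at this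
  simp at this
  obtain ⟨h0, h1, h2, h3⟩ := this
  exact ⟨v 0, v 1, v 5, v 2, v 6, v 3, v 4, h0.symm, by rw [← h1]; abel, by rw [← h2]; abel, h3.symm⟩

lemma hyp : Hyp (a : A k) b c d e f :=
  ⟨rfl, rfl, ab, bc, cd, de, ef, bd, ce, fun _ _ _ _ => syz, nak⟩

def bb : ℕ → ℕ
  | 0 => 1
  | 1 => 4
  | 2 => 7
  | 3 => 8
  | 4 => 7
  | 5 => 4
  | 6 => 1
  | _ + 7 => 0

noncomputable def DD : ∀ n, Matrix (Fin (bb (n + 1))) (Fin (bb n)) (A k)
  | 0 => M0 c d e f
  | 1 => M1 a b c d e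
  | 2 => M2 a b c d
  | 3 => M3 a b c
  | 4 => M4 a b
  | 5 => M5 a
  | _ + 6 => 0

lemma quad : Quadratic k (RR k) := by
  rintro _ ⟨i, rfl⟩
  have m : ∀ i j, FreeAlgebra.ι k i * FreeAlgebra.ι k j ∈ Submodule.span k
      {z : FreeAlgebra k (Fin 4) | ∃ i j, z = FreeAlgebra.ι k i * FreeAlgebra.ι k j} :=
    fun i j => Submodule.subset_span ⟨i, j, rfl⟩
  fin_cases i <;> simp only [rl, Fin.reduceFinMk, cons_val, add_mul, mul_add] <;>
    apply_rules [Submodule.add_mem]

lemma linres : LinRes k (RR k) bb := by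
  refine ⟨rfl, DD, fun n => ?_, fun n => ?_, fun w => ?_⟩
  · have m : ∀ i, gen k (RR k) i ∈ Submodule.span k (Set.range (gen k (RR k))) :=
      fun i => Submodule.subset_span ⟨i, rfl⟩
    have mc : c ∈ _ := m 0
    have md : d ∈ _ := m 1
    have me : e ∈ _ := m 2
    have mf : f ∈ _ := m 3
    have ma : a ∈ _ := Submodule.add_mem _ mc mf
    have mb : b ∈ _ := Submodule.add_mem _ (Submodule.add_mem _ md me) mf
    match n with
    | 0 => exact fun (i : Fin 4) (j : Fin 1) => by fin_cases i <;> fin_cases j <;> simp [DD, M0, *]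
    | 1 => exact fun (i : Fin 7) (j : Fin 4) => by fin_cases i <;> fin_cases j <;> simp [DD, M1, *]
    | 2 => exact fun (i : Fin 8) (j : Fin 7) => by fin_cases i <;> fin_cases j <;> simp [DD, M2, *]
    | 3 => exact fun (i : Fin 7) (j : Fin 8) => by fin_cases i <;> fin_cases j <;> simp [DD, M3, *]
    | 4 => exact fun (i : Fin 4) (j : Fin 7) => by fin_cases i <;> fin_cases j <;> simp [DD, M4, *]
    | 5 => exact fun (i : Fin 1) (j : Fin 4) => by fin_cases i <;> fin_cases j <;> simp [DD, M5, *]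
    | _ + 6 => exact fun _ _ => Submodule.zero_mem _
  · match n with
    | 0 => exact hyp.ex0
    | 1 => exact hyp.ex1
    | 2 => exact hyp.ex2
    | 3 => exact hyp.ex3
    | 4 => exact hyp.ex4
    | 5 => exact hyp.ex5
    | _ + 6 => exact exact_of _ _ (Matrix.zero_mul _) fun v _ => ⟨0, funext fun j => j.elim0⟩
  · change (∃ v : Fin 4 → A k, v ᵥ* M0 c d e f = w) ↔ ∀ j : Fin 1, _
    rw [Fin.forall_fin_one, Ideal.mem_span_range_iff_exists_fun]
    refine exists_congr fun v => ?_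
    rw [funext_iff, Fin.forall_fin_one]
    simp [M0, vecMul, dotProduct, Fin.sum_univ_succ, c, d, e, f]

theorem main (k : Type) [Field k] : ∃ (m : ℕ) (R : Set (FreeAlgebra k (Fin m))) (b : ℕ → ℕ) (n : ℕ),
    Quadratic k R ∧ LinRes k R b ∧ 1 ≤ n ∧ b n ≠ 0 ∧ (∀ i > n, b i = 0) ∧
      (n - 1) * b 1 ^ 2 < 2 * n * b 2 :=
  ⟨4, RR k, bb, 6, quad, linres, by norm_num, by decide, fun i hi => by
    obtain ⟨j, rfl⟩ : ∃ j, i = j + 7 := ⟨i - 7, by omega⟩
    rfl, by decide⟩

end Pool.Agent.H.MP_2e24ef_al
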